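import Mathlib
import Pool.Agent.H751R3.Fq.Local

set_option autoImplicit false

/-!
# MP_1bac39_an : a Floquet matrix with a pathology of the first kind

`n = 4`, period `2π`, `𝓛 = (M - m)²` with `M = d²/dx² - (sin² x - 2 cos x)` and `m` a critical point
of the discriminant of `M` inside a gap; the pathology is over `λ = 0`.
-/

namespace Pool.Agent.Results.MP_1bac39_an.FirstKindPathology

open Filter Topology Matrix

/-- `y = (u, u', …, u^{(n-1)})` on `ℝ` for a solution `u` of `𝓛 u = λ u`, where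
`𝓛 u = u^{(n)} + ∑_k p_k u^{(k)}`. -/
def IsSolution {n : ℕ} [NeZero n] (p : Fin n → ℝ → ℂ) (lam : ℂ) (y : ℝ → Fin n → ℂ) : Prop :=
  ∀ (x : ℝ) (k : Fin n), HasDerivAt (fun x => y x k)
    (if h : k.1 + 1 < n then y x ⟨k.1 + 1, h⟩ else lam * y x 0 - ∑ j, p j x * y x j) x

/-- The coefficients of `𝓛` are continuous and `b`-periodic, and `p_{n-1} = 0`. -/
def IsCoefficients {n : ℕ} (b : ℝ) (p : Fin n → ℝ → ℂ) : Prop :=
  (∀ k, Continuous (p k)) ∧ (∀ k x, p k (x + b) = p k x) ∧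
    ∀ (k : Fin n) (x : ℝ), k.1 + 1 = n → p k x = 0

/-- `T` is the Floquet matrix: `T(λ)_{kj} = u_j^{(k)}(b; λ)`, `k, j = 0, …, n-1`, for the
fundamental solutions `u_j`, `u_j^{(k)}(0; λ) = δ_{jk}`. -/
def IsFloquetMatrix {n : ℕ} [NeZero n] (b : ℝ) (p : Fin n → ℝ → ℂ)
    (T : ℂ → Matrix (Fin n) (Fin n) ℂ) : Prop :=
  ∀ lam : ℂ, ∃ U : Fin n → ℝ → Fin n → ℂ,
    (∀ j, IsSolution p lam (U j) ∧ U j 0 = Pi.single j 1) ∧ ∀ k j, T lam k j = U j b k

/-- `A` has `n` distinct eigenvalues, that is, the discriminant of its characteristic polynomial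
does not vanish. -/
def DistinctEigenvalues {n : ℕ} (A : Matrix (Fin n) (Fin n) ℂ) : Prop :=
  ∃ c : Fin n → ℂ, Function.Injective c ∧ ∀ j, A.charpoly.IsRoot (c j)

/-- The germ `ρ` describes a ramification point of degree `d > 1` over `λ₀`: the eigenvalues of
`N(λ)` are distinct for `λ = λ₀ + s^d` close to `λ₀`, `λ ≠ λ₀`; `ρ(s)` is an eigenvalue of
`N(λ₀ + s^d)`, analytic in `s`; and the `d` branches `ρ(ζ s)`, `ζ^d = 1`, which are permuted
cyclically by continuation around `λ₀` and meet in `ρ(0)`, are distinct for `s ≠ 0`. -/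
def IsRamificationPoint {n : ℕ} (N : ℂ → Matrix (Fin n) (Fin n) ℂ) (lam0 : ℂ) (d : ℕ)
    (ρ : ℂ → ℂ) : Prop :=
  1 < d ∧ AnalyticAt ℂ ρ 0 ∧
  (∀ᶠ s in 𝓝 (0 : ℂ), (N (lam0 + s ^ d)).charpoly.IsRoot (ρ s)) ∧
  (∀ᶠ s in 𝓝[≠] (0 : ℂ), DistinctEigenvalues (N (lam0 + s ^ d))) ∧
  ∀ᶠ s in 𝓝[≠] (0 : ℂ), ∀ ζ ξ : ℂ, ζ ^ d = 1 → ξ ^ d = 1 → ρ (ζ * s) = ρ (ξ * s) → ζ = ξ

/-- `V_ℓ(λ)` for `λ = λ₀ + s^d`: the span of the eigenvectors for the eigenvalues `ρ(ζ s)`. -/
def branchSpan {n : ℕ} (N : ℂ → Matrix (Fin n) (Fin n) ℂ) (lam0 : ℂ) (d : ℕ) (ρ : ℂ → ℂ)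
    (s : ℂ) : Submodule ℂ (Fin n → ℂ) :=
  Submodule.span ℂ {v | ∃ ζ : ℂ, ζ ^ d = 1 ∧ N (lam0 + s ^ d) *ᵥ v = ρ (ζ * s) • v}

/-- The subspaces `V s` converge to `E` as `s → 0`, `s ≠ 0`: some bases of `V s` converge to a
basis of `E`. -/
def SpanTendsto {n : ℕ} (V : ℂ → Submodule ℂ (Fin n → ℂ)) (E : Submodule ℂ (Fin n → ℂ)) : Prop :=
  ∃ (k : ℕ) (w : Fin k → ℂ → Fin n → ℂ) (w0 : Fin k → Fin n → ℂ),
    LinearIndependent ℂ w0 ∧ Submodule.span ℂ (Set.range w0) = E ∧
    (∀ j, Tendsto (w j) (𝓝[≠] 0) (𝓝 (w0 j))) ∧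
    ∀ᶠ s in 𝓝[≠] (0 : ℂ), Submodule.span ℂ (Set.range fun j => w j s) = V s

/-- `N` has a pathology of the first kind over `λ₀`: for some ramification point of degree `d > 1`
over `λ₀`, the spans `V_ℓ(λ)` converge to the eigenspace of `N(λ₀)` for `r(ℓ) = ρ(0)`, and this
eigenspace has dimension greater than one. -/
def HasFirstKindPathology {n : ℕ} (N : ℂ → Matrix (Fin n) (Fin n) ℂ) (lam0 : ℂ) : Prop :=
  ∃ (d : ℕ) (ρ : ℂ → ℂ), IsRamificationPoint N lam0 d ρ ∧
    ∃ E : Submodule ℂ (Fin n → ℂ), (∀ v, v ∈ E ↔ N lam0 *ᵥ v = ρ 0 • v) ∧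
      1 < Module.finrank ℂ E ∧ SpanTendsto (branchSpan N lam0 d ρ) E

open H751R3.Fq in
theorem pathology {N : ℂ → M4} {a b : ℂ → ℂ} {u w : ℂ → V4} {u1 w1 : V4}
    (h : Loc N a b u w u1 w1) : HasFirstKindPathology N 0 := by
  have hsq : ∀ ζ : ℂ, ζ ^ 2 = 1 → ζ = 1 ∨ ζ = -1 := fun ζ hζ => by
    have h1 : (ζ - 1) * (ζ + 1) = 0 := by linear_combination hζ
    rcases mul_eq_zero.1 h1 with h2 | h2
    · left; exact sub_eq_zero.1 h2
    · right; exact eq_neg_of_add_eq_zero_left h2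
  refine ⟨2, a, ⟨by norm_num, h.a_an, ?_, ?_, ?_⟩, Submodule.span ℂ {u 0, u1}, fun v => ?_, ?_, ?_⟩
  · have huc : ContinuousAt u 0 := h.u_d.continuousAt
    filter_upwards [huc.tendsto.eventually_ne h.u0_ne] with s hs
    rw [zero_add]
    exact isRoot_of hs (h.eig_u s)
  · filter_upwards [h.four] with s hs
    obtain ⟨hinj, n1, n2, n3, n4⟩ := hs
    rw [zero_add]
    have e2 := h.eig_u (-s)
    have e4 := h.eig_w (-s)
    rw [neg_sq] at e2 e4
    refine ⟨_, hinj, fun j => ?_⟩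
    fin_cases j
    · exact isRoot_of n1 (h.eig_u s)
    · exact isRoot_of n2 e2
    · exact isRoot_of n3 (h.eig_w s)
    · exact isRoot_of n4 e4
  · filter_upwards [h.a_ne] with s hs ζ ξ hζ hξ he
    rcases hsq ζ hζ with rfl | rfl <;> rcases hsq ξ hξ with rfl | rfl
    · rfl
    · rw [one_mul, neg_one_mul] at he
      exact absurd he hs
    · rw [one_mul, neg_one_mul] at he
      exact absurd he.symm hs
    · rfl
  · exact (eig_plane h.ab h.lim_u.1 h.lim_u.2 h.lim_w.1 h.lim_w.2 h.li_u h.li_w).symm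
  · have hli : LinearIndependent ℂ ![u 0, u1] := by
      rw [LinearIndependent.pair_iff]
      exact h.li_u
    have h1 := finrank_span_eq_card hli
    have hr : Set.range ![u 0, u1] = {u 0, u1} := by
      ext v
      simp only [Set.mem_range, Fin.exists_fin_two, Matrix.cons_val_zero, Matrix.cons_val_one,
        Set.mem_insert_iff, Set.mem_singleton_iff, eq_comm]
    rw [hr] at h1
    rw [h1]
    simp
  · refine ⟨2, ![u, dq u], ![u 0, u1], ?_, ?_, ?_, ?_⟩
    · rw [LinearIndependent.pair_iff]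
      exact h.li_u
    · congr 1
      ext v
      simp only [Set.mem_range, Fin.exists_fin_two, Matrix.cons_val_zero, Matrix.cons_val_one,
        Set.mem_insert_iff, Set.mem_singleton_iff, eq_comm]
    · intro j
      fin_cases j
      · exact h.u_d.continuousAt.tendsto.mono_left nhdsWithin_le_nhds
      · exact dq_tendsto h.u_d
    · filter_upwards [h.lines, self_mem_nhdsWithin] with s hs hs0
      obtain ⟨l1, l2⟩ := hs
      have hs0' : s ≠ 0 := hs0
      have e2 := h.eig_u (-s)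
      rw [neg_sq] at e2
      apply le_antisymm
      · rw [Submodule.span_le]
        rintro v ⟨j, rfl⟩
        have m1 : u s ∈ branchSpan N 0 2 a s :=
          Submodule.subset_span ⟨1, one_pow 2, by rw [zero_add, one_mul]; exact h.eig_u s⟩
        have m2 : u (-s) ∈ branchSpan N 0 2 a s :=
          Submodule.subset_span ⟨-1, by norm_num, by rw [zero_add, neg_one_mul]; exact e2⟩
        fin_cases j
        · exact m1
        · exact Submodule.smul_mem _ _ (Submodule.sub_mem _ m1 m2)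
      · unfold branchSpan
        rw [Submodule.span_le]
        rintro v ⟨ζ, hζ, hv⟩
        rw [zero_add] at hv
        have m1 : u s ∈ Submodule.span ℂ (Set.range fun j : Fin 2 => ![u, dq u] j s) :=
          Submodule.subset_span ⟨0, rfl⟩
        have m2 : dq u s ∈ Submodule.span ℂ (Set.range fun j : Fin 2 => ![u, dq u] j s) :=
          Submodule.subset_span ⟨1, rfl⟩
        have m3 : u (-s) ∈ Submodule.span ℂ (Set.range fun j : Fin 2 => ![u, dq u] j s) := by
          have : u (-s) = u s - (2 * s) • dq u s := by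
            unfold dq
            rw [smul_smul, mul_inv_cancel₀ (mul_ne_zero two_ne_zero hs0'), one_smul, sub_sub_cancel]
          rw [this]
          exact Submodule.sub_mem _ m1 (Submodule.smul_mem _ _ m2)
        rcases hsq ζ hζ with rfl | rfl
        · rw [one_mul] at hv
          obtain ⟨t, rfl⟩ := l1 v hv
          exact Submodule.smul_mem _ _ m1
        · rw [neg_one_mul] at hv
          obtain ⟨t, rfl⟩ := l2 v hv
          exact Submodule.smul_mem _ _ m3

/-- The coefficients. -/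
noncomputable def coef : Fin 4 → ℝ → ℂ :=
  ![fun x => (H751R3.Fq.P0 H751R3.Fq.mS x : ℂ), fun x => (H751R3.Fq.P1 x : ℂ),
    fun x => (H751R3.Fq.P2 H751R3.Fq.mS x : ℂ), fun _ => 0]

open H751R3.Fq in
theorem coef_ok : IsCoefficients (2 * Real.pi) coef := by
  have hQ := Q_cont
  have h1 := q1_cont
  have h2 := q2_cont
  refine ⟨fun k => ?_, fun k x => ?_, fun k x hk => ?_⟩
  · fin_cases k
    · change Continuous fun x => (P0 mS x : ℂ)
      unfold P0; fun_prop
    · change Continuous fun x => (P1 x : ℂ)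
      unfold P1; fun_prop
    · change Continuous fun x => (P2 mS x : ℂ)
      unfold P2; fun_prop
    · exact continuous_const
  · have k1 : q1 (x + 2 * Real.pi) = q1 x := by
      unfold q1; rw [Real.sin_add_two_pi, Real.cos_add_two_pi]
    have k2 : q2 (x + 2 * Real.pi) = q2 x := by
      unfold q2; rw [Real.sin_add_two_pi, Real.cos_add_two_pi]
    fin_cases k
    · change (P0 mS (x + 2 * Real.pi) : ℂ) = P0 mS x
      unfold P0; rw [Q_per, k2]
    · change (P1 (x + 2 * Real.pi) : ℂ) = P1 x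
      unfold P1; rw [k1]
    · change (P2 mS (x + 2 * Real.pi) : ℂ) = P2 mS x
      unfold P2; rw [Q_per]
    · rfl
  · have hk3 : k = 3 := by
      apply Fin.ext
      change k.1 = 3
      omega
    subst hk3
    rfl

open H751R3.Fq in
theorem floquet_ok : IsFloquetMatrix (2 * Real.pi) coef (TT mS) := by
  intro lam
  refine ⟨fun j => FY mS lam (Pi.single j 1), fun j => ⟨fun x k => ?_, FY_zero _ _ _⟩,
    fun k j => rfl⟩
  have h1 := hasDerivAt_pi.1 (FY_deriv mS lam (Pi.single j 1) x) k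
  refine h1.congr_deriv ?_
  have hs : ∀ y : V4, ∑ j, coef j x * y j = P0 mS x * y 0 + P1 x * y 1 + P2 mS x * y 2 := by
    intro y
    rw [Fin.sum_univ_four]
    simp [coef]
  rw [hs]
  fin_cases k <;> simp [rhs]

/-- There are `n ≥ 2`, a period `b > 0` and continuous `b`-periodic coefficients such that the
Floquet matrix of `𝓛 u = λ u` has a pathology of the first kind (over `λ = 0`). -/
theorem result : ∃ (n : ℕ) (_ : NeZero n) (b : ℝ) (p : Fin n → ℝ → ℂ)
    (T : ℂ → Matrix (Fin n) (Fin n) ℂ), 2 ≤ n ∧ 0 < b ∧ IsCoefficients b p ∧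
    IsFloquetMatrix b p T ∧ HasFirstKindPathology T 0 := by
  obtain ⟨b, u, w, u1, w1, h⟩ := H751R3.Fq.exists_loc
  exact ⟨4, inferInstance, 2 * Real.pi, coef, H751R3.Fq.TT H751R3.Fq.mS, by norm_num,
    by positivity, coef_ok, floquet_ok, pathology h⟩

end Pool.Agent.Results.MP_1bac39_an.FirstKindPathology
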